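import Pool.Agent.DPF.Stmts

/-!
# CMP: left compression
-/

set_option autoImplicit false

namespace Pool.Agent.DPF.H48

open Finset Pool.Agent.DPS

theorem mem_ini {n l : ℕ} {x : Fin n} : x ∈ ini n l ↔ x.val < l := by
  simp [ini]

theorem card_compl_ini {n : ℕ} (c : Fin n) : ((ini n c.val)ᶜ : Finset (Fin n)).card = n - c.val := by
  have h : (ini n c.val).card = c.val := by
    have e : ini n c.val = Finset.Iio c := by
      ext x
      rw [mem_ini, Finset.mem_Iio]
      exact Iff.rfl
    rw [e, Fin.card_Iio]
  rw [Finset.card_compl, h, Fintype.card_fin]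

theorem degree_le {n k : ℕ} {c y : Fin n} {𝒯 : Finset (Finset (Fin n))} (hC : Cl c 𝒯) (hy : y < c)
    {R R' : Finset (Fin n)} (hc : c ∈ R') (h1 : ∀ x ∈ R, x = y ∨ (x ∈ R' ∧ x ≠ c)) :
    degree (fam k (c.val + 1) 𝒯) R' ≤ degree (fam k (c.val + 1) 𝒯) R := by
  unfold degree
  refine Finset.card_le_card_of_injOn (fun K => if y ∈ K then K else insert y (K.erase c)) ?_ ?_
  · intro K hK
    rw [Finset.mem_coe, Finset.mem_filter] at hK ⊢
    obtain ⟨hK1, hK2⟩ := hK
    by_cases hyK : y ∈ K
    · simp only [hyK, if_true]
      refine ⟨hK1, fun x hx => ?_⟩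
      rcases h1 x hx with rfl | h
      · exact hyK
      · exact hK2 h.1
    · simp only [hyK, if_false]
      have hcK : c ∈ K := hK2 hc
      refine ⟨?_, fun x hx => ?_⟩
      · unfold fam at hK1 ⊢
        rw [Finset.mem_filter, Finset.mem_powersetCard] at hK1 ⊢
        refine ⟨⟨Finset.subset_univ _, ?_⟩, ?_⟩
        · rw [Finset.card_insert_of_notMem (fun h => hyK (Finset.mem_of_mem_erase h)),
            Finset.card_erase_of_mem hcK, hK1.1.2]
          have : 0 < K.card := Finset.card_pos.2 ⟨c, hcK⟩
          rw [hK1.1.2] at this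
          omega
        · have e : insert y (K.erase c) ∩ ini n (c.val + 1) =
              insert y ((K ∩ ini n (c.val + 1)).erase c) := by
            ext x
            simp only [Finset.mem_inter, Finset.mem_insert, Finset.mem_erase, mem_ini]
            constructor
            · rintro ⟨h | h, h'⟩
              · exact Or.inl h
              · exact Or.inr ⟨h.1, h.2, h'⟩
            · rintro (h | h)
              · refine ⟨Or.inl h, ?_⟩
                rw [h]
                exact Nat.lt_succ_of_lt hy
              · exact ⟨Or.inr ⟨h.1, h.2.1⟩, h.2.2⟩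
          rw [e]
          refine hC _ hK1.2 ?_ y hy ?_
          · rw [Finset.mem_inter, mem_ini]
            exact ⟨hcK, Nat.lt_succ_self _⟩
          · intro h
            exact hyK (Finset.mem_inter.1 h).1
      · rcases h1 x hx with rfl | h
        · exact Finset.mem_insert_self _ _
        · exact Finset.mem_insert_of_mem (Finset.mem_erase.2 ⟨h.2, hK2 h.1⟩)
  · intro K hK K' hK' hKK
    rw [Finset.mem_coe, Finset.mem_filter] at hK hK'
    have hcK : c ∈ K := hK.2 hc
    have hcK' : c ∈ K' := hK'.2 hc
    have hyc : c ≠ y := fun h => (ne_of_lt hy) h.symm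
    simp only at hKK
    by_cases hyK : y ∈ K
    · by_cases hyK' : y ∈ K'
      · simpa only [hyK, hyK', if_true] using hKK
      · simp only [hyK, hyK', if_true, if_false] at hKK
        exfalso
        rw [hKK, Finset.mem_insert, Finset.mem_erase] at hcK
        rcases hcK with h | h
        · exact hyc h
        · exact h.1 rfl
    · by_cases hyK' : y ∈ K'
      · simp only [hyK, hyK', if_true, if_false] at hKK
        exfalso
        rw [← hKK, Finset.mem_insert, Finset.mem_erase] at hcK'
        rcases hcK' with h | h
        · exact hyc h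
        · exact h.1 rfl
      · simp only [hyK, hyK', if_false] at hKK
        have h2 : K.erase c = K'.erase c := by
          have h3 : (insert y (K.erase c)).erase y = (insert y (K'.erase c)).erase y := by
            rw [hKK]
          rw [Finset.erase_insert (fun h => hyK (Finset.mem_of_mem_erase h)),
            Finset.erase_insert (fun h => hyK' (Finset.mem_of_mem_erase h))] at h3
          exact h3
        rw [← Finset.insert_erase hcK, h2, Finset.insert_erase hcK']

theorem cmp (hdgb : DGBStmt) : CMPStmt := by
  intro n k t b c 𝒯 hG hC hb A hA y hy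
  have hyc : y < c := by
    have := hA hy
    rw [mem_ini] at this
    exact this
  have hcard : (((ini n c.val)ᶜ : Finset (Fin n)).erase c).card = n - c.val - 1 := by
    rw [Finset.card_erase_of_mem, card_compl_ini]
    rw [Finset.mem_compl, mem_ini]
    exact lt_irrefl _
  obtain ⟨B, hB, hBc⟩ := Finset.exists_subset_card_eq (s := ((ini n c.val)ᶜ : Finset (Fin n)).erase c)
    (n := b) (by rw [hcard]; omega)
  have hcB : c ∉ B := fun h => (Finset.mem_erase.1 (hB h)).1 rfl
  have hBd : Disjoint B (ini n c.val) := by
    rw [Finset.disjoint_left]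
    intro x hx
    exact Finset.mem_compl.1 (Finset.mem_erase.1 (hB hx)).2
  have hcini : c ∉ ini n c.val := by
    rw [mem_ini]
    exact lt_irrefl _
  have hBd' : Disjoint (insert c B) (ini n c.val) := by
    rw [Finset.disjoint_insert_left]
    exact ⟨hcini, hBd⟩
  have h1 := hdgb n k t c 𝒯 hG (A.erase y) (insert c B)
    (fun x hx => hA (Finset.mem_of_mem_erase hx)) hBd'
  rw [if_pos (Finset.mem_insert_self _ _), Finset.card_insert_of_notMem hcB, hBc] at h1
  have h2 := hdgb n k t c 𝒯 hG A B hA hBd
  rw [if_neg hcB, hBc] at h2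
  rw [← h1, ← h2]
  have h3 : degree (fam k (c.val + 1) 𝒯) (A.erase y ∪ insert c B) ≤
      degree (fam k (c.val + 1) 𝒯) (A ∪ B) := by
    refine degree_le hC hyc ?_ ?_
    · exact Finset.mem_union_right _ (Finset.mem_insert_self _ _)
    · intro x hx
      rcases Finset.mem_union.1 hx with h | h
      · by_cases hxy : x = y
        · exact Or.inl hxy
        · refine Or.inr ⟨Finset.mem_union_left _ (Finset.mem_erase.2 ⟨hxy, h⟩), ?_⟩
          rintro rfl
          exact hcini (hA h)
      · refine Or.inr ⟨Finset.mem_union_right _ (Finset.mem_insert_of_mem h), ?_⟩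
        rintro rfl
        exact hcB h
  exact_mod_cast h3

end Pool.Agent.DPF.H48
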